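import Mathlib

namespace Pool.Agent.Results.MP_f6a359_co.EightRegular

/-- Total domination number: least size of a vertex set `S` such that every vertex has a
neighbour in `S`. -/
noncomputable def totalDom {n : ℕ} (G : SimpleGraph (Fin n)) : ℕ :=
  sInf {k | ∃ S : Finset (Fin n), (∀ v, ∃ u ∈ S, G.Adj v u) ∧ S.card = k}

/-- A path cover: a list of nonempty vertex sequences, consecutive vertices adjacent, in which
every vertex of the graph occurs exactly once overall. -/
def IsPathCover {n : ℕ} (G : SimpleGraph (Fin n)) (P : List (List (Fin n))) : Prop :=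
  (∀ p ∈ P, p ≠ [] ∧ p.IsChain G.Adj) ∧ P.flatten.Nodup ∧ ∀ v, v ∈ P.flatten

/-- Path covering number: least number of paths in a path cover. -/
noncomputable def pathCover {n : ℕ} (G : SimpleGraph (Fin n)) : ℕ :=
  sInf {k | ∃ P : List (List (Fin n)), IsPathCover G P ∧ P.length = k}

def adj (a b : Fin 37) : Bool :=
  a != b && (if a.val = 36 then b.val % 9 ≤ 1 else if b.val = 36 then a.val % 9 ≤ 1
    else a.val / 9 = b.val / 9 && a.val % 9 + b.val % 9 != 1)

def G0 : SimpleGraph (Fin 37) where
  Adj a b := adj a b = true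
  symm := ⟨by decide +kernel⟩
  loopless := ⟨by decide +kernel⟩

instance : DecidableRel G0.Adj := fun a b => inferInstanceAs (Decidable (adj a b = true))

theorem same : ∀ a b : Fin 37, G0.Adj a b → a ≠ 36 → b ≠ 36 → a.val / 9 = b.val / 9 := by
  decide +kernel

theorem one_comp (p : List (Fin 37)) (hp : p.IsChain G0.Adj) (hs : (36 : Fin 37) ∉ p) :
    ∃ c, ∀ v ∈ p, v.val / 9 = c := by
  induction p with
  | nil => exact ⟨0, by simp⟩
  | cons a l ih =>
    cases l with
    | nil => exact ⟨a.val / 9, by simp⟩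
    | cons b l =>
      rw [List.isChain_cons_cons] at hp
      obtain ⟨c, hc⟩ := ih hp.2 (fun h => hs (List.mem_cons_of_mem _ h))
      refine ⟨c, fun v hv => ?_⟩
      rcases List.mem_cons.mp hv with rfl | hv
      · rw [same _ _ hp.1 (fun h => hs (by simp [h])) (fun h => hs (by simp [h]))]
        exact hc b (by simp)
      · exact hc v hv

theorem two_comp (p : List (Fin 37)) (hp : p.IsChain G0.Adj) (hn : p.Nodup) :
    ∃ c d, ∀ v ∈ p, v = 36 ∨ v.val / 9 = c ∨ v.val / 9 = d := by
  by_cases hs : (36 : Fin 37) ∈ p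
  · obtain ⟨l1, l2, rfl⟩ := List.append_of_mem hs
    have h1 : (36 : Fin 37) ∉ l1 := by
      intro h
      exact (List.nodup_append.mp hn).2.2 _ h _ (by simp) rfl
    have h2 : (36 : Fin 37) ∉ l2 := (List.nodup_cons.mp (List.nodup_append.mp hn).2.1).1
    obtain ⟨c, hc⟩ := one_comp l1 hp.left_of_append h1
    obtain ⟨d, hd⟩ := one_comp l2 hp.right_of_append.tail h2
    refine ⟨c, d, fun v hv => ?_⟩
    simp only [List.mem_append, List.mem_cons] at hv
    rcases hv with hv | hv | hv
    · exact Or.inr (Or.inl (hc v hv))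
    · exact Or.inl hv
    · exact Or.inr (Or.inr (hd v hv))
  · obtain ⟨c, hc⟩ := one_comp p hp hs
    exact ⟨c, c, fun v hv => Or.inr (Or.inl (hc v hv))⟩

theorem three (P : List (List (Fin 37))) (h : IsPathCover G0 P) : 3 ≤ P.length := by
  obtain ⟨h1, h2, h3⟩ := h
  have fin : ∀ c d e : ℕ, (∀ v : Fin 37, v = 36 ∨ v.val / 9 = c ∨ v.val / 9 = d ∨
      v.val / 9 = e) → False := by
    intro c d e h
    have a0 := h 0
    have a1 := h 9
    have a2 := h 18
    have a3 := h 27
    simp at a0 a1 a2 a3
    omega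
  match P, h1, h2, h3 with
  | [], _, _, h3 => simpa using h3 0
  | [p], h1, h2, h3 =>
    exfalso
    obtain ⟨c, d, hc⟩ := two_comp p (h1 p (by simp)).2 (by simpa using h2)
    refine fin c d d (fun v => ?_)
    have := hc v (by simpa using h3 v)
    tauto
  | [p, q], h1, h2, h3 =>
    exfalso
    simp only [List.flatten_cons, List.flatten_nil, List.append_nil] at h2 h3
    obtain ⟨np, nq, hd⟩ := List.nodup_append.mp h2
    by_cases hs : (36 : Fin 37) ∈ p
    · obtain ⟨c, d, hc⟩ := two_comp p (h1 p (by simp)).2 np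
      obtain ⟨e, he⟩ := one_comp q (h1 q (by simp)).2 (fun h => hd _ hs _ h rfl)
      refine fin c d e (fun v => ?_)
      rcases List.mem_append.mp (h3 v) with h | h
      · have := hc v h; tauto
      · have := he v h; tauto
    · obtain ⟨c, d, hc⟩ := two_comp q (h1 q (by simp)).2 nq
      obtain ⟨e, he⟩ := one_comp p (h1 p (by simp)).2 hs
      refine fin c d e (fun v => ?_)
      rcases List.mem_append.mp (h3 v) with h | h
      · have := he v h; tauto
      · have := hc v h; tauto
  | _ :: _ :: _ :: _, _, _, _ => simp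

theorem result : ∃ (n r : ℕ) (G : SimpleGraph (Fin n)) (_ : DecidableRel G.Adj), 1 ≤ r ∧
    G.IsRegularOfDegree r ∧ totalDom G < 2 * pathCover G := by
  refine ⟨37, 8, G0, inferInstance, by norm_num, ?_, ?_⟩
  · unfold SimpleGraph.IsRegularOfDegree
    decide +kernel
  · have h1 : totalDom G0 ≤ 5 := by
      apply Nat.sInf_le
      exact ⟨{36, 0, 9, 18, 27}, by decide +kernel, by decide +kernel⟩
    have h2 : 3 ≤ pathCover G0 := by
      apply le_csInf
      · refine ⟨_, (List.finRange 37).map (fun v => [v]), ⟨?_, ?_, ?_⟩, rfl⟩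
        · intro p hp
          obtain ⟨v, -, rfl⟩ := List.mem_map.mp hp
          simp
        · decide +kernel
        · decide +kernel
      · rintro k ⟨P, hP, rfl⟩
        exact three P hP
    omega

end Pool.Agent.Results.MP_f6a359_co.EightRegular
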